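import Mathlib
import Pool.Agent.H16.GC.Gen

set_option autoImplicit false

/-!
# The metric cotype inequality for all Banach spaces in the range `m ≥ n^(1/2 + 1/q)`

Every Banach space of Rademacher cotype `q` satisfies the metric cotype `q` inequality for `(n, m)`
with constant `O(1 + (n^(1/2 + 1/q) / m)^(1/2))`. In particular the constant is bounded, uniformly
in `n`, in the range `m ≥ n^(1/2 + 1/q)`.
-/

namespace Pool.Agent.Results.MP_f492a7_an.AllBanachSpacesRange

open Finset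

universe u

/-- Rademacher cotype `q` with constant `C`: for all finite sequences `y_1, …, y_k`,
`∑_j ‖y_j‖^q ≤ C^q E_σ ‖∑_j σ_j y_j‖^q`, with `σ` uniform on `{-1, 1}^k`. -/
def RademacherCotype (Y : Type u) [NormedAddCommGroup Y] (q C : ℝ) : Prop :=
  ∀ (k : ℕ) (y : Fin k → Y), ∑ j, ‖y j‖ ^ q ≤
    C ^ q * ((∑ σ : Fin k → ℤˣ, ‖∑ j, (σ j : ℤ) • y j‖ ^ q) / 2 ^ k)

/-- The metric cotype `q` inequality with constant `K` for `(n, m)`: every `f` on the discrete torus
`(Z/m)^n` satisfies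
`∑_j E_x ‖f(x + (m/2) e_j) - f(x)‖^q ≤ K^q m^q E_{x,ε} ‖f(x + ε) - f(x)‖^q`,
with `x` uniform on the torus and `ε` uniform on `{-1, 0, 1}^n`. -/
def MetricCotypeInequality (Y : Type u) [NormedAddCommGroup Y] (q K : ℝ) (n m : ℕ) [NeZero m] :
    Prop :=
  ∀ f : (Fin n → ZMod m) → Y,
    ∑ j : Fin n, (∑ x : Fin n → ZMod m, ‖f (x + (m / 2) • Pi.single j 1) - f x‖ ^ q) /
        (m : ℝ) ^ n ≤
      K ^ q * (m : ℝ) ^ q * ((∑ x : Fin n → ZMod m,
        ∑ ε ∈ Fintype.piFinset (fun _ : Fin n => ({-1, 0, 1} : Finset ℤ)),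
          ‖f (x + fun j => (ε j : ZMod m)) - f x‖ ^ q) / ((m : ℝ) ^ n * 3 ^ n))

/-- Every real normed space `Y` of Rademacher cotype `q ≥ 2` with constant `C` satisfies the metric
cotype `q` inequality with constant `400 (1 + C) (1 + (n^(1/2 + 1/q) / m)^(1/2))` for `(n, m)`,
for every `n` and every `m ≥ 1`. In particular, for all `n` and all even `m ≥ n^(1/2 + 1/q)` it
satisfies it with the constant `800 (1 + C)`. -/
theorem result : ∀ (Y : Type u) [NormedAddCommGroup Y] [NormedSpace ℝ Y] (q C : ℝ),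
    2 ≤ q → 0 ≤ C → RademacherCotype Y q C → ∀ (n m : ℕ) [NeZero m],
      MetricCotypeInequality Y q (400 * (1 + C) * (1 + √((n : ℝ) ^ (1 / 2 + 1 / q) / m))) n m := by
  intro Y _ _ q C hq hC0 hC n m _
  exact H16.GC.gen_main hq hC hC0 n m

end Pool.Agent.Results.MP_f492a7_an.AllBanachSpacesRange
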