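import Mathlib
import Pool.Agent.H16.MC.Fin

set_option autoImplicit false

/-!
# The metric cotype inequality with sharp scaling parameter for Banach lattices

Every Banach lattice of Rademacher cotype `q`, and every space which embeds bi-Lipschitzly into
one, satisfies the metric cotype `q` inequality for all `n` and all even `m ≥ n^(1/q)`, with a
constant which does not depend on the dimension `n`.
-/

namespace Pool.Agent.Results.MP_f492a7_an.BanachLatticeMetricCotype

open Finset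

universe u v

/-- Rademacher cotype `q` with constant `C`: for all finite sequences `y_1, …, y_k`,
`∑_j ‖y_j‖^q ≤ C^q E_σ ‖∑_j σ_j y_j‖^q`, with `σ` uniform on `{-1, 1}^k`. -/
def RademacherCotype (Y : Type u) [NormedAddCommGroup Y] (q C : ℝ) : Prop :=
  ∀ (k : ℕ) (y : Fin k → Y), ∑ j, ‖y j‖ ^ q ≤
    C ^ q * ((∑ σ : Fin k → ℤˣ, ‖∑ j, (σ j : ℤ) • y j‖ ^ q) / 2 ^ k)

/-- The metric cotype `q` inequality with constant `K` for `(n, m)`: every `f` on the discrete torus
`(Z/m)^n` satisfies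
`∑_j E_x ‖f(x + (m/2) e_j) - f(x)‖^q ≤ K^q m^q E_{x,ε} ‖f(x + ε) - f(x)‖^q`,
with `x` uniform on the torus and `ε` uniform on `{-1, 0, 1}^n`. -/
def MetricCotypeInequality (Y : Type u) [NormedAddCommGroup Y] (q K : ℝ) (n m : ℕ) [NeZero m] :
    Prop :=
  ∀ f : (Fin n → ZMod m) → Y,
    ∑ j : Fin n, (∑ x : Fin n → ZMod m, ‖f (x + (m / 2) • Pi.single j 1) - f x‖ ^ q) /
        (m : ℝ) ^ n ≤
      K ^ q * (m : ℝ) ^ q * ((∑ x : Fin n → ZMod m,
        ∑ ε ∈ Fintype.piFinset (fun _ : Fin n => ({-1, 0, 1} : Finset ℤ)),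
          ‖f (x + fun j => (ε j : ZMod m)) - f x‖ ^ q) / ((m : ℝ) ^ n * 3 ^ n))

/-- For all real `q ≥ 2`, `C ≥ 0` and `A` there is a constant `Γ` such that: if `E` is a real
Banach lattice of Rademacher cotype `q` with constant `C`, and `Y` is a real normed space with a
map `J : Y → E` satisfying `‖x - y‖ ≤ ‖J x - J y‖ ≤ A ‖x - y‖` for all `x`, `y` (for example
`Y = E`, or a subspace of `E`), then `Y` satisfies the metric cotype `q` inequality for `(n, m)`
with constant `Γ`, for every `n` and every even `m ≥ n^(1/q)`. -/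
theorem result : ∀ q C A : ℝ, 2 ≤ q → 0 ≤ C → ∃ Γ : ℝ,
    ∀ (E : Type u) [NormedAddCommGroup E] [Lattice E] [HasSolidNorm E] [IsOrderedAddMonoid E]
      [NormedSpace ℝ E] [PosSMulMono ℝ E] [CompleteSpace E], RademacherCotype E q C →
    ∀ (Y : Type v) [NormedAddCommGroup Y] [NormedSpace ℝ Y] (J : Y → E),
      (∀ x y, ‖x - y‖ ≤ ‖J x - J y‖ ∧ ‖J x - J y‖ ≤ A * ‖x - y‖) →
    ∀ (n m : ℕ) [NeZero m], Even m → (n : ℝ) ^ (1 / q) ≤ m →
      MetricCotypeInequality Y q Γ n m := by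
  intro q C A hq hC0
  refine ⟨H16.MC.Gam q C * max A 0, ?_⟩
  intro E _ _ _ _ _ _ _ hC Y _ _ J hJ n m _ hm hmn
  have h := H16.MC.mci_lattice (E := E) (q := q) (C := C) hC hC0 hq hm hmn
  have hG : 0 ≤ H16.MC.Gam q C := by
    unfold H16.MC.Gam
    have : (0 : ℝ) ≤ max 1 (H16.MC.Kc q C) := le_trans zero_le_one (le_max_left _ _)
    positivity
  exact h.comap (by linarith) hG J hJ

end Pool.Agent.Results.MP_f492a7_an.BanachLatticeMetricCotype
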